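import Mathlib
import Pool.Agent.H358Z.NegD

/-!
# A rational surface on which `h¹(D) / h⁰(D)` is unbounded over the irreducible curves `D`

Let `X` be the blow-up of the complex projective plane at the thirty-six points
`(± a : ± a³ : 1)`, `a = 1, …, 9`.  They are the preimages under `(x : y : z) ↦ (x² : y² : z²)` of
nine points of a cuspidal cubic, and the plane blown up at these nine points has negative curves of
unbounded degree.  The components of their preimages are irreducible curves `D` on `X` with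
`D² < 0` and `K·D` unbounded; so `h⁰(D) = 1` and `h¹(D) = (K·D - D²) / 2` is unbounded.

On the blow-up `X` of the plane at a finite set `S`, the divisor classes are `d H - ∑ m_p E_p`, the
canonical class is `K = -3 H + ∑ E_p`, and the proper transform of the irreducible plane curve
`F = 0` of degree `d` is an irreducible curve whose `m_p` are the multiplicities of `F`.
-/

set_option autoImplicit false

namespace Pool.Agent.Results.MP_d885f5_ag.AHarbourneBoundFails

open MvPolynomial

/-- The points of the complex projective plane. -/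
abbrev Plane := Projectivization ℂ (Fin 3 → ℂ)

/-- The ideal of the polynomials that vanish at a coordinate vector of `p`; a form vanishes to order
at least `m` at `p` if and only if it lies in the `m`-th power. -/
noncomputable def ptIdeal (p : Plane) : Ideal (MvPolynomial (Fin 3) ℂ) :=
  RingHom.ker (eval p.rep)

/-- The multiplicity at `p` of the plane curve `F = 0`. -/
noncomputable def mult (F : MvPolynomial (Fin 3) ℂ) (p : Plane) : ℤ :=
  (sSup {m : ℕ | F ∈ ptIdeal p ^ m} : ℕ)

/-- `H⁰(X, O_X(d H - ∑ m_p E_p))` on the blow-up `X` of the plane at the points of `S`: the forms of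
degree `d` that vanish to order at least `max (m_p, 0)` at each `p` in `S`. -/
noncomputable def H0 (S : Finset Plane) (d : ℤ) (m : Plane → ℤ) :
    Submodule ℂ (MvPolynomial (Fin 3) ℂ) :=
  if 0 ≤ d then
    homogeneousSubmodule (Fin 3) ℂ d.toNat ⊓
      ⨅ p ∈ S, (ptIdeal p ^ (m p).toNat).restrictScalars ℂ
  else ⊥

/-- `h⁰(D)` for `D = d H - ∑ m_p E_p`. -/
noncomputable def h0 (S : Finset Plane) (d : ℤ) (m : Plane → ℤ) : ℤ :=
  Module.finrank ℂ (H0 S d m)

/-- The Euler characteristic `χ(O_X(D)) = 1 + D·(D - K) / 2` for `D = d H - ∑ m_p E_p`. -/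
noncomputable def chi (S : Finset Plane) (d : ℤ) (m : Plane → ℤ) : ℤ :=
  1 + (d * (d + 3) - ∑ p ∈ S, m p * (m p + 1)) / 2

/-- `h¹(D) = h⁰(D) + h⁰(K - D) - χ(O_X(D))` (Riemann-Roch and Serre duality), where
`K - D = (-3 - d) H - ∑ (-1 - m_p) E_p`. -/
noncomputable def h1 (S : Finset Plane) (d : ℤ) (m : Plane → ℤ) : ℤ :=
  h0 S d m + h0 S (-3 - d) (fun p => -1 - m p) - chi S d m

/-- There is a set `S` of thirty-six points of the plane such that on the blow-up `X` of the plane
at `S`, for every `α`, the proper transform `D` of some irreducible plane curve has `h⁰(D) = 1` and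
`h¹(D) > α h⁰(D)`. -/
theorem result : ∃ S : Finset Plane, S.card = 36 ∧ ∀ α : ℝ,
    ∃ (d : ℕ) (F : MvPolynomial (Fin 3) ℂ), F.IsHomogeneous d ∧ Irreducible F ∧
      h0 S d (mult F) = 1 ∧ α * (h0 S d (mult F) : ℝ) < (h1 S d (mult F) : ℝ) := by
  refine ⟨H358Z.Neg.SS ℂ, H358Z.Neg.card_SS, fun α => ?_⟩
  obtain ⟨n, hn⟩ := exists_nat_gt α
  obtain ⟨H, f, a1, a2, a3, a4⟩ := H358Z.Neg.main (k := ℂ) (2 * n)
  set S := H358Z.Neg.SS ℂ
  have hm : ∀ p : Plane, mult H p = (Chud.mu p.rep H : ℕ) := fun p => by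
    unfold mult ptIdeal
    rw [H358Z.Neg.sSup_eq_mu p.rep a1.ne_zero]
  have hH0 : H0 S f (mult H) = Submodule.span ℂ {H} := by
    ext G
    rw [H0, if_pos (Int.natCast_nonneg f), Submodule.mem_span_singleton]
    simp only [Submodule.mem_inf, Submodule.mem_iInf, Int.toNat_natCast, hm,
      Submodule.restrictScalars_mem, mem_homogeneousSubmodule]
    constructor
    · rintro ⟨b1, b2⟩
      exact H358Z.Neg.rigid S a1 a2 a3 b1 b2
    · rintro ⟨c, rfl⟩
      refine ⟨(homogeneousSubmodule (Fin 3) ℂ f).smul_mem c a2, fun p _ => ?_⟩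
      rw [smul_eq_C_mul]
      exact Ideal.mul_mem_left _ _ ((Chud.mem_mI_pow_iff p.rep a1.ne_zero _).2 le_rfl)
  have e0 : h0 S f (mult H) = 1 := by
    rw [h0, hH0, finrank_span_singleton a1.ne_zero]
    rfl
  have e1 : h0 S (-3 - f) (fun p => -1 - mult H p) = 0 := by
    rw [h0, H0, if_neg (by omega), finrank_bot]
    rfl
  have h5 : (f : ℤ) ^ 2 < ∑ p ∈ S, mult H p ^ 2 := by
    simp only [hm]
    exact_mod_cast a3
  have h6 : 3 * (f : ℤ) + 2 * n ≤ ∑ p ∈ S, mult H p := by
    simp only [hm]
    exact_mod_cast a4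
  have h9 : ∑ p ∈ S, mult H p * (mult H p + 1) =
      ∑ p ∈ S, mult H p ^ 2 + ∑ p ∈ S, mult H p := by
    rw [← Finset.sum_add_distrib]
    exact Finset.sum_congr rfl fun p _ => by ring
  have h10 : (f : ℤ) * (f + 3) = (f : ℤ) ^ 2 + 3 * f := by ring
  have e2 : (n : ℤ) ≤ h1 S f (mult H) := by
    rw [h1, e0, e1, chi, h9, h10]
    omega
  refine ⟨f, H, a2, a1, e0, ?_⟩
  have e3 : (n : ℝ) ≤ (h1 S f (mult H) : ℝ) := by exact_mod_cast e2
  rw [e0]
  push_cast
  linarith

end Pool.Agent.Results.MP_d885f5_ag.AHarbourneBoundFails
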